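import Pool.Agent.H37.IS.Stm3

set_option autoImplicit false

namespace H37.IS

open N36365310

theorem RLO_proved (hNB1 : S_NB1) : S_RLO := by
  classical
  intro H _ _ _ J d N K k hW
  obtain ⟨hN, hK, hd, -, hN0, hlo, hhi⟩ := hW
  have hH : 100 * Fintype.card H ≤ N := by
    rw [hN]
    calc 100 * Fintype.card H = ∑ _v : H, 100 := by simp [mul_comm]
      _ ≤ ∑ v, d v := Finset.sum_le_sum (fun v _ => hK.trans (hd v))
  have hAH : ∀ A : Finset H, A.card ≤ Fintype.card H := fun A => Finset.card_le_univ A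
  have hdS : ∀ A : Finset H, dS d A ≤ N := by
    intro A
    rw [hN]
    exact Finset.sum_le_sum_of_subset (Finset.subset_univ A)
  have hmem : ∀ A, A ∈ Om J d N k ↔ J.IsIndepSet (A : Set H) ∧ k - A.card ≤ N - dS d A := by
    intro A
    unfold Om
    simp only [Finset.mem_filter, Finset.mem_univ, true_and]
  have hw0 : ∀ A, 0 ≤ wt d N k A := fun A => Nat.cast_nonneg _
  have key : ∀ v A, v ∈ A → A ∈ Om J d N k → A.erase v ∈ Om J d N k ∧
      wt d N k A ≤ (3 / 5 : ℝ) ^ (d v - 1) * wt d N k (A.erase v) := by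
    intro v A hv hA
    rw [hmem] at hA
    have hc : (A.erase v).card + 1 = A.card := Finset.card_erase_add_one hv
    have hdd : dS d (A.erase v) + d v = dS d A := Finset.sum_erase_add A d hv
    have h1 := hAH A
    have h2 := hdS A
    have h3 := hd v
    have hkA : A.card ≤ k := by omega
    have hE : A.erase v ∈ Om J d N k := by
      rw [hmem]
      refine ⟨hA.1.mono (Finset.coe_subset.mpr (Finset.erase_subset v A)), ?_⟩
      omega
    refine ⟨hE, ?_⟩
    have h4 := hNB1 (N - dS d (A.erase v)) (k - (A.erase v).card) (d v) (by omega) (by omega)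
      ((hmem _).mp hE).2 (by omega)
    have e1 : N - dS d (A.erase v) - d v = N - dS d A := by omega
    have e2 : k - (A.erase v).card - 1 = k - A.card := by omega
    rw [e1, e2] at h4
    have h5 : (wt d N k A) * 5 ^ (d v - 1) ≤ 3 ^ (d v - 1) * wt d N k (A.erase v) := by
      unfold wt
      exact_mod_cast h4
    rw [div_pow, div_mul_eq_mul_div, le_div_iff₀ (by positivity)]
    exact h5
  have hpow : ∀ v, (3 / 5 : ℝ) ^ (d v - 1) ≤ 1 / 1000 := by
    intro v
    have h1 : 99 ≤ d v - 1 := by have := hd v; omega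
    calc (3 / 5 : ℝ) ^ (d v - 1) ≤ (3 / 5 : ℝ) ^ 99 :=
          pow_le_pow_of_le_one (by norm_num) (by norm_num) h1
      _ ≤ 1 / 1000 := by norm_num
  set W := ∑ A ∈ Om J d N k, wt d N k A with hWdef
  have hW0 : 0 ≤ W := Finset.sum_nonneg (fun A _ => hw0 A)
  have hv : ∀ v, ∑ A ∈ (Om J d N k).filter (fun A => v ∈ A), wt d N k A ≤ (1 / 1000) * W := by
    intro v
    calc ∑ A ∈ (Om J d N k).filter (fun A => v ∈ A), wt d N k A
        ≤ ∑ A ∈ (Om J d N k).filter (fun A => v ∈ A), (1 / 1000) * wt d N k (A.erase v) := by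
          refine Finset.sum_le_sum (fun A hA => ?_)
          rw [Finset.mem_filter] at hA
          exact (key v A hA.2 hA.1).2.trans (mul_le_mul_of_nonneg_right (hpow v) (hw0 _))
      _ = (1 / 1000) * ∑ A ∈ (Om J d N k).filter (fun A => v ∈ A), wt d N k (A.erase v) := by
          rw [Finset.mul_sum]
      _ = (1 / 1000) * ∑ B ∈ ((Om J d N k).filter (fun A => v ∈ A)).image (fun A => A.erase v),
            wt d N k B := by
          rw [Finset.sum_image]
          intro A hA B hB h
          have hA' := (Finset.mem_filter.mp (Finset.mem_coe.mp hA)).2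
          have hB' := (Finset.mem_filter.mp (Finset.mem_coe.mp hB)).2
          have h' : A.erase v = B.erase v := h
          rw [← Finset.insert_erase hA', ← Finset.insert_erase hB', h']
      _ ≤ (1 / 1000) * W := by
          refine mul_le_mul_of_nonneg_left ?_ (by norm_num)
          refine Finset.sum_le_sum_of_subset_of_nonneg ?_ (fun A _ _ => hw0 A)
          intro B hB
          obtain ⟨A, hA, rfl⟩ := Finset.mem_image.mp hB
          rw [Finset.mem_filter] at hA
          exact (key v A hA.2 hA.1).1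
  have hsum : ∑ A ∈ Om J d N k, wt d N k A * (dS d A : ℝ) ≤ (N : ℝ) / 1000 * W := by
    have h1 : ∀ A : Finset H, (dS d A : ℝ) = ∑ v : H, (if v ∈ A then (d v : ℝ) else 0) := by
      intro A
      unfold dS
      rw [Finset.sum_ite_mem, Finset.univ_inter]
      push_cast
      rfl
    have h2 : ∑ A ∈ Om J d N k, wt d N k A * (dS d A : ℝ) =
        ∑ v : H, (d v : ℝ) * ∑ A ∈ (Om J d N k).filter (fun A => v ∈ A), wt d N k A := by
      simp_rw [h1, Finset.mul_sum]
      rw [Finset.sum_comm]
      refine Finset.sum_congr rfl (fun v _ => ?_)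
      rw [Finset.sum_filter]
      refine Finset.sum_congr rfl (fun A _ => ?_)
      by_cases h : v ∈ A
      · simp only [if_pos h]; ring
      · simp only [if_neg h]; ring
    rw [h2]
    calc ∑ v : H, (d v : ℝ) * ∑ A ∈ (Om J d N k).filter (fun A => v ∈ A), wt d N k A
        ≤ ∑ v : H, (d v : ℝ) * ((1 / 1000) * W) :=
          Finset.sum_le_sum (fun v _ => mul_le_mul_of_nonneg_left (hv v) (Nat.cast_nonneg _))
      _ = (N : ℝ) / 1000 * W := by
          rw [← Finset.sum_mul, hN]
          push_cast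
          ring
  have hpt : ∀ A ∈ Om J d N k, wt d N k A * ((N : ℝ) - k - dS d A) ≤
      ((k : ℝ) + 1) * (wt d N k A * rho d N k A) := by
    intro A hA
    rw [hmem] at hA
    have h1 := hAH A
    have h2 := hdS A
    have hkA : A.card ≤ k := by omega
    have h3 : (k : ℝ) - A.card ≤ N - dS d A := by
      have := hA.2
      have h4 : ((k - A.card : ℕ) : ℝ) ≤ ((N - dS d A : ℕ) : ℝ) := by exact_mod_cast this
      rw [Nat.cast_sub hkA, Nat.cast_sub h2] at h4
      exact h4
    have hkA' : (A.card : ℝ) ≤ k := by exact_mod_cast hkA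
    have hc0 : (0 : ℝ) ≤ A.card := Nat.cast_nonneg _
    have hr : (N : ℝ) - k - dS d A ≤ ((k : ℝ) + 1) * rho d N k A := by
      unfold rho
      rw [mul_div_assoc', le_div_iff₀ (by linarith)]
      have h5 : 0 ≤ (N : ℝ) - dS d A - k + A.card := by linarith
      nlinarith
    calc wt d N k A * ((N : ℝ) - k - dS d A) ≤ wt d N k A * (((k : ℝ) + 1) * rho d N k A) :=
          mul_le_mul_of_nonneg_left hr (hw0 A)
      _ = _ := by ring
  have hfin : ((N : ℝ) - k) * W - (N : ℝ) / 1000 * W ≤
      ((k : ℝ) + 1) * ∑ A ∈ Om J d N k, wt d N k A * rho d N k A := by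
    have h1 := Finset.sum_le_sum hpt
    rw [← Finset.mul_sum] at h1
    have h2 : ∑ A ∈ Om J d N k, wt d N k A * ((N : ℝ) - k - dS d A) =
        ((N : ℝ) - k) * W - ∑ A ∈ Om J d N k, wt d N k A * (dS d A : ℝ) := by
      rw [hWdef, Finset.mul_sum, ← Finset.sum_sub_distrib]
      refine Finset.sum_congr rfl (fun A _ => ?_)
      ring
    rw [h2] at h1
    linarith
  have hN0' : (2000 : ℝ) ≤ N := by exact_mod_cast hN0
  have hhi' : 100 * (k : ℝ) ≤ 51 * N := by exact_mod_cast hhi
  have hk0 : (0 : ℝ) ≤ k := Nat.cast_nonneg _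
  have hA : ((k : ℝ) + 1) * (W / 2) ≤
      ((k : ℝ) + 1) * ∑ A ∈ Om J d N k, wt d N k A * rho d N k A := by
    refine le_trans ?_ hfin
    have h1 : ((k : ℝ) + 1) / 2 ≤ N - k - N / 1000 := by linarith
    nlinarith
  exact le_of_mul_le_mul_left hA (by positivity)

end H37.IS
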